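import Pool.Agent.R684.GP.Main
import Pool.Agent.R684.GP.CO
import Pool.Agent.R684.GP.GQ
import Pool.Agent.R684.GP.B1
import Pool.Agent.R684.GP.TF
import Pool.Agent.R684.GP.TF2
import Pool.Agent.R684.GP.ZF
import Pool.Agent.R684.GP.VD
import Pool.Agent.R684.GP.ZD
import Pool.Agent.R928.PNCLO
import Pool.Agent.R787.PNOP
import Pool.Agent.R415.PNCMP
import Pool.Agent.R372.VG.LIMG
import Pool.Agent.R973.VGSH

set_option autoImplicit false

/-!
# Commensurated subgroups of groups with the finite quotients of a lattice in PSL(2,R)

Let `A` be a finitely generated residually finite group with the same finite quotients as a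
finitely generated group `B` which has a subgroup of finite index of deficiency at least two (for
example a lattice `B` in `PSL(2,R)`: it has a finite index subgroup which is a free group of rank at
least two or the group of a closed orientable surface of genus at least two). Then every finitely
generated commensurated subgroup of infinite index in `A` is a torsion group. If `B` has a free
subgroup of finite index (of finite rank at least two), then it is finite, and if `B` itself is
free, then it is trivial.

Pieces by helpers 221 (CO), 335 (GQ), 287 (B1), 450 (TF), 174 (VD), 369 (ZD), 690 (ZF), and for the underlying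
`L²` machinery 372, 928, 787, 415, 973, 422, 649.
-/

namespace Pool.Agent.Results.MP_305fdd_al.CommensuratedGenus

/-- the groups `A` and `B` have the same finite quotients -/
def SameFiniteQuotients (A B : Type) [Group A] [Group B] : Prop :=
  ∀ (Q : Type) [Group Q] [Finite Q], (∃ f : A →* Q, Function.Surjective f) ↔
    ∃ f : B →* Q, Function.Surjective f

/-- the group `A` is residually finite -/
def ResiduallyFinite (A : Type) [Group A] : Prop :=
  ∀ a : A, a ≠ 1 → ∃ N : Subgroup A, N.Normal ∧ N.FiniteIndex ∧ a ∉ N

/-- `N` is commensurated in `A`: for every `g` the subgroup `N ∩ g N g⁻¹` has finite index in `N` -/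
def IsCommensurated {A : Type} [Group A] (N : Subgroup A) : Prop :=
  ∀ g : A, (N.map (MulAut.conj g).toMonoidHom).relIndex N ≠ 0

/-- `B` has a subgroup of finite index which is isomorphic to a group `⟨X | rels⟩`, `X` finite,
with `|X| ≥ |rels| + 2` -/
def VirtualDeficiencyTwo (B : Type) [Group B] : Prop :=
  ∃ (X : Type) (_ : Fintype X) (rels : Finset (FreeGroup X))
    (j : PresentedGroup (rels : Set (FreeGroup X)) →* B),
    rels.card + 2 ≤ Fintype.card X ∧ Function.Injective j ∧ j.range.FiniteIndex

/-- `B` has a subgroup of finite index which is a free group of finite rank at least two -/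
def VirtuallyFree (B : Type) [Group B] : Prop :=
  ∃ (X : Type) (_ : Finite X) (_ : Nontrivial X) (j : FreeGroup X →* B),
    Function.Injective j ∧ j.range.FiniteIndex

theorem comm {A : Type} [Group A] (N : Subgroup A) (hN : N.Normal ∨ IsCommensurated N) :
    ∀ g : A, (N.map (MulAut.conj g).toMonoidHom).relIndex N ≠ 0 := by
  rcases hN with hN | hN
  · intro g
    have : N.map (MulAut.conj g).toMonoidHom = N := by
      ext x
      constructor
      · rintro ⟨y, hy, rfl⟩
        exact hN.conj_mem y hy g
      · intro hx
        exact ⟨g⁻¹ * x * g, by simpa using hN.conj_mem x hx g⁻¹,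
          by simp [MulAut.conj_apply, mul_assoc]⟩
    rw [this, Subgroup.relIndex_self]
    exact one_ne_zero
  · exact hN

/-- Main theorem. Let `A` be a finitely generated residually finite group and `N` a finitely
generated subgroup of infinite index which is normal or, more generally, commensurated.
(1) If `A` has the same finite quotients as a finitely generated group `B` with a finite index
subgroup of deficiency at least two, then all elements of `N` have finite order.
(2) If `A` has the same finite quotients as a finitely generated group `B` which is virtually a free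
group of finite rank at least two, then `N` is finite.
(3) If `A` has the same finite quotients as a free group of finite rank at least two, then
`N = 1`. -/
theorem result (A : Type) [Group A] (hA : Group.FG A) (hr : ResiduallyFinite A) (N : Subgroup A)
    (hN : N.Normal ∨ IsCommensurated N) (hfg : N.FG) (hi : N.index = 0) :
    (∀ (B : Type) [Group B], Group.FG B → VirtualDeficiencyTwo B → SameFiniteQuotients A B →
      ∀ n ∈ N, IsOfFinOrder n) ∧
    (∀ (B : Type) [Group B], Group.FG B → VirtuallyFree B → SameFiniteQuotients A B →
      Finite N) ∧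
    (∀ (X : Type) [Finite X] [Nontrivial X], SameFiniteQuotients A (FreeGroup X) → N = ⊥) := by
  have hCO := Pool.Agent.R221.GPCO.t_CO
  have hGQ := Pool.Agent.R335.GPGQ.t_GQ hCO
  have hB1 := Pool.Agent.R287.GPB1.t_B1 hCO hGQ
  have h2 : ∀ (B X : Type) [Group B] [Finite X] [Nontrivial X], Group.FG B →
      ∀ j : FreeGroup X →* B, Function.Injective j → j.range.FiniteIndex →
      SameFiniteQuotients A B → ∀ n ∈ N, IsOfFinOrder n := by
    intro B X _ _ _ hB j hj hjf hAB n hn
    have : Fintype X := Fintype.ofFinite X
    refine Pool.Agent.R684.GP.t_MAIN hCO hGQ hB1 Pool.Agent.R174.GPVD.t_VD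
      Pool.Agent.R973.VGSH.t_SH Pool.Agent.R372.VG.LIMG.t_LIMG Pool.Agent.R928.PNCLO.t_CLO
      Pool.Agent.R787.PNOP.t_OP Pool.Agent.R415.PNCMP.t_CMP (fun Q _ _ => hAB Q) hr j hj hjf
      (Fintype.card X) ?_ Fintype.one_lt_card N (comm N hN) hi hfg n hn
    intro H _
    exact (Pool.Agent.R690.GPZF.t_ZF X H).ge
  refine ⟨?_, ?_, ?_⟩
  · rintro B _ hB ⟨X, _, rels, j, hd, hj, hjf⟩ hAB n hn
    have hfgL : Group.FG (PresentedGroup (rels : Set (FreeGroup X))) :=
      Group.fg_of_surjective (PresentedGroup.mk_surjective (rels : Set (FreeGroup X)))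
    refine Pool.Agent.R684.GP.t_MAIN hCO hGQ hB1 Pool.Agent.R174.GPVD.t_VD
      Pool.Agent.R973.VGSH.t_SH Pool.Agent.R372.VG.LIMG.t_LIMG Pool.Agent.R928.PNCLO.t_CLO
      Pool.Agent.R787.PNOP.t_OP Pool.Agent.R415.PNCMP.t_CMP (fun Q _ _ => hAB Q) hr j hj hjf
      (Fintype.card X - rels.card) ?_ (by omega) N (comm N hN) hi hfg n hn
    intro H _
    have h := Pool.Agent.R369.GPZD.t_ZD X rels H
    rw [Nat.sub_mul]
    omega
  · rintro B _ hB ⟨X, _, _, j, hj, hjf⟩ hAB
    exact Pool.Agent.R684.GP.fin_of_torsion hCO hGQ (fun Q _ _ => hAB Q) hr j hj hjf N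
      (h2 B X hB j hj hjf hAB)
  · intro X _ _ hAX
    rw [Subgroup.eq_bot_iff_forall]
    intro n hn
    refine Pool.Agent.R684.GP.t_TF hCO hGQ A X (fun Q _ _ => hAX Q) hr n ?_
    refine h2 (FreeGroup X) X inferInstance (MonoidHom.id _) (fun _ _ h => h) ?_ hAX n hn
    have : (MonoidHom.id (FreeGroup X)).range = ⊤ := MonoidHom.range_eq_top.2 fun x => ⟨x, rfl⟩
    rw [this]
    infer_instance

end Pool.Agent.Results.MP_305fdd_al.CommensuratedGenus
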